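import Pool.Agent.helper58.FI.SpecC

set_option autoImplicit false

namespace Pool.Agent.FI

open Pool.Agent.helper58.DC Pool.Agent.DI Pool.Agent.GR Pool.Agent.OB Pool.Agent.DR

/-- A subgroup of a cyclic quotient is cyclic. -/
theorem FCP_sub {G : Type} [Group G] {C T U : Subgroup G} (hT : CyS C T) (hCU : C ≤ U) (hUT : U ≤ T) :
    CyS C U := by
  obtain ⟨s, -, hs⟩ := hT
  let H : AddSubgroup ℤ :=
    { carrier := {k | s ^ k ∈ U}
      zero_mem' := by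
        change s ^ (0 : ℤ) ∈ U
        rw [zpow_zero]
        exact U.one_mem
      add_mem' := by
        intro a b ha hb
        change s ^ (a + b) ∈ U
        rw [zpow_add]
        exact U.mul_mem ha hb
      neg_mem' := by
        intro a ha
        change s ^ (-a) ∈ U
        rw [zpow_neg]
        exact U.inv_mem ha }
  obtain ⟨a, ha⟩ := Int.subgroup_cyclic H
  have haH : a ∈ H := by
    rw [ha]
    exact AddSubgroup.subset_closure rfl
  refine ⟨s ^ a, haH, fun x hx => ?_⟩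
  obtain ⟨k, hk⟩ := hs x (hUT hx)
  have hkH : k ∈ H := by
    change s ^ k ∈ U
    have h1 := U.mul_mem (hCU hk) (U.inv_mem hx)
    rwa [mul_inv_cancel_right] at h1
  rw [ha, AddSubgroup.mem_closure_singleton] at hkH
  obtain ⟨m, hm⟩ := hkH
  refine ⟨m, ?_⟩
  rw [← zpow_mul]
  have h2 : a * m = k := by
    rw [← hm, smul_eq_mul, mul_comm]
  rw [h2]
  exact hk

/-- The index of `K` in `S = K S₀`. -/
theorem FCP_idx {G : Type} [Group G] {K S S₀ : Subgroup G} (hS : S₀ ≤ S)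
    (h : ∀ n ∈ S, ∃ k ∈ K, k * n ∈ S₀) : K.relIndex S = K.relIndex S₀ := by
  unfold Subgroup.relIndex Subgroup.index
  symm
  refine Nat.card_congr (Equiv.ofBijective (Subgroup.quotientSubgroupOfEmbeddingOfLE K hS)
    ⟨(Subgroup.quotientSubgroupOfEmbeddingOfLE K hS).injective, ?_⟩)
  intro q
  induction q using QuotientGroup.induction_on with
  | H x =>
    obtain ⟨k, hk, hkx⟩ := h (x : G)⁻¹ (S.inv_mem x.2)
    have hy : (x : G) * k⁻¹ ∈ S₀ := by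
      have h1 := S₀.inv_mem hkx
      rwa [mul_inv_rev, inv_inv] at h1
    refine ⟨((⟨(x : G) * k⁻¹, hy⟩ : S₀) : S₀ ⧸ K.subgroupOf S₀), ?_⟩
    rw [Subgroup.quotientSubgroupOfEmbeddingOfLE_apply_mk]
    rw [QuotientGroup.eq, Subgroup.mem_subgroupOf]
    change ((x : G) * k⁻¹)⁻¹ * (x : G) ∈ K
    have h2 : ((x : G) * k⁻¹)⁻¹ * (x : G) = k := by group
    rw [h2]
    exact hk

theorem FCP_nrm {G : Type} [Group G] {P : Subgroup G} {g k : G} (hg : g ∈ nz P) (hk : k ∈ cz P) :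
    g * k * g⁻¹ ∈ cz P := cz_conj hg hk

theorem FCP (hFRA : FRA_stmt) (hIF : IF_stmt) : FCP_stmt := by
  intro p M hM G _ _ D x θ χ hlo P hP hP0 N hN hN' ψ hψ
  obtain ⟨⟨h1, h2, h3, h4⟩, h5, h6⟩ := hFRA p M hM G D x θ χ hlo P hP
  have h4 := h4 hP0
  have hKS : cz P ≤ stF N ψ := by
    intro k hk
    refine ⟨hN hk, ?_⟩
    funext y
    have e := cjF_apply k ψ y
    have e' := ((hIF G (cz P)).2 ψ hψ.1).2.1 k⁻¹ ((cz P).inv_mem hk) y
    rw [inv_inv] at e'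
    exact e.trans e'
  have hS0 : stF (TT M D θ ⊓ N) ψ ≤ stF N ψ := by
    intro k hk
    exact ⟨hk.1.2, hk.2⟩
  have hCS0 : cz D ≤ stF (TT M D θ ⊓ N) ψ := by
    intro k hk
    exact ⟨⟨h1 hk, hN (h2 hk)⟩, (hKS (h2 hk)).2⟩
  have hS0T : stF (TT M D θ ⊓ N) ψ ≤ TT M D θ := fun k hk => hk.1.1
  have hmain : ∀ n ∈ stF N ψ, ∃ k ∈ cz P, k * n ∈ stF (TT M D θ ⊓ N) ψ := by
    intro n hn
    have hn2 : cjF n ψ = ψ := hn.2
    obtain ⟨k, hk, hkn⟩ := h5 n (hN' hn.1) ψ hψ (by rw [hn2]; exact hψ)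
    have h7 := (stF N ψ).mul_mem (hKS hk) hn
    exact ⟨k, hk, ⟨hkn, h7.1⟩, h7.2⟩
  have hinf : cz P ⊓ stF (TT M D θ ⊓ N) ψ = cz D := by
    apply le_antisymm
    · intro k hk
      rw [← h4]
      exact ⟨hk.2.1.1, hk.1⟩
    · intro k hk
      exact ⟨h2 hk, hCS0 hk⟩
  have hidx : (cz P).relIndex (stF N ψ) = (cz D).relIndex (stF (TT M D θ ⊓ N) ψ) := by
    rw [FCP_idx hS0 hmain, ← hinf, Subgroup.inf_relIndex_right]
  have hc0 : CyS (cz D) (stF (TT M D θ ⊓ N) ψ) := FCP_sub hlo.cyc hCS0 hS0T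
  refine ⟨?_, ?_, hidx, ?_⟩
  · obtain ⟨s, hs, hs'⟩ := hc0
    refine ⟨s, hS0 hs, fun y hy => ?_⟩
    obtain ⟨k, hk, hky⟩ := hmain y hy
    obtain ⟨m, hm⟩ := hs' _ hky
    refine ⟨m, ?_⟩
    have hsn : s ^ m ∈ nz P := (nz P).zpow_mem (hN' hs.1.2) m
    have h7 := (cz P).mul_mem ((cz P).inv_mem (FCP_nrm hsn hk)) (h2 hm)
    have h8 : (s ^ m * k * (s ^ m)⁻¹)⁻¹ * (s ^ m * (k * y)) = s ^ m * y := by group
    rwa [h8] at h7
  · rw [hidx]
    intro hdv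
    exact hlo.bet (dvd_trans hdv (Dvd.intro _ (Subgroup.relIndex_mul_relIndex _ _ _ hCS0 hS0T)))
  · exact FCP_sub hlo.cyc (le_inf h1 (h2.trans hN)) inf_le_left

end Pool.Agent.FI
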