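import Pool.Agent.helper40.FI.SpecLA

set_option autoImplicit false

namespace Pool.Agent.FI

open Finset

theorem LGM_card {I : Type} [Fintype I] (P : I → Prop) [DecidablePred P] :
    ∑ t : I, (if P t then (1 : ℂ) else 0) = (Nat.card {t : I // P t} : ℂ) := by
  rw [Nat.card_eq_fintype_card, Fintype.card_subtype, Finset.card_filter]
  push_cast
  rfl

theorem LGM_sh {D : Type} [CommGroup D] [Fintype D] [Fintype (D →* ℂˣ)] {Z : Subgroup D} {l₀ l : D →* ℂˣ}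
    (hl : l ∈ ov Z l₀) (z : Z) (b : D) :
    lv l₀ (z : D)⁻¹ * (lv l ((z : D)⁻¹ * b)⁻¹ - lv l₀ ((z : D)⁻¹ * b)⁻¹) = lv l b⁻¹ - lv l₀ b⁻¹ := by
  have h1 := mem_ov.1 hl z z.2
  have h2 : ((z : D)⁻¹ * b)⁻¹ = b⁻¹ * (z : D) := by group
  rw [h2, lv_mul, lv_mul, h1, lv_inv l₀ (z : D)]
  have h3 := lv_ne l₀ (z : D)
  field_simp

open Classical in
theorem LGM_orth {D : Type} [CommGroup D] [Fintype D] (l l' l₀ : D →* ℂˣ) (hl : l ≠ l₀) (hl' : l' ≠ l₀) :
    ∑ u, (lv l' u - lv l₀ u) * (lv l u⁻¹ - lv l₀ u⁻¹) =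
      (Nat.card D : ℂ) * ((if l = l' then 1 else 0) + 1) := by
  have h1 : ∑ u, (lv l' u - lv l₀ u) * (lv l u⁻¹ - lv l₀ u⁻¹) =
      ∑ u, lv l' u * lv l u⁻¹ - ∑ u, lv l' u * lv l₀ u⁻¹ - ∑ u, lv l₀ u * lv l u⁻¹ +
        ∑ u, lv l₀ u * lv l₀ u⁻¹ := by
    rw [← Finset.sum_sub_distrib, ← Finset.sum_sub_distrib, ← Finset.sum_add_distrib]
    refine Finset.sum_congr rfl fun u _ => ?_
    ring
  rw [h1, sum_lv_lv, sum_lv_lv, sum_lv_lv, sum_lv_lv, if_neg hl', if_neg (Ne.symm hl), if_pos rfl]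
  by_cases h : l = l'
  · rw [if_pos h.symm, if_pos h]
    ring
  · rw [if_neg (fun h' => h h'.symm), if_neg h]
    ring

theorem LGM (hLGK : LGK_stmt) : LGM_stmt := by
  intro p D _ _ _ X _ Z I g l₀ A hg hfx hA l hl l' hl' hne hne'
  classical
  have : Fintype Z := Fintype.ofFinite Z
  have : Finite (MulAut D) := Finite.of_injective (fun t : MulAut D => (t : D → D)) fun a b h => MulEquiv.ext (congrFun h)
  have : Fintype I := Fintype.ofFinite I
  have hD0 : (Nat.card D : ℂ) ≠ 0 := Nat.cast_ne_zero.2 Nat.card_pos.ne'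
  have hZ0 : (Nat.card Z : ℂ) ≠ 0 := Nat.cast_ne_zero.2 Nat.card_pos.ne'
  have hlt : ∀ t : I, tw (t : MulAut D) l ≠ l₀ := by
    intro t h
    apply hne
    apply tw_injective (t : MulAut D)
    rw [h]
    refine lv_inj fun u => ?_
    rw [lv_tw, hfx t t.2 u]
  -- the conjugate of the second factor
  have hconj : ∀ χ, (Nat.card D : ℂ) * (A χ l' : ℂ) =
      ∑ u, (starRingEnd ℂ) (g χ u) * (lv l' u - lv l₀ u) := by
    intro χ
    have h1 := congrArg (starRingEnd ℂ) (hA χ l' hl')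
    rw [map_sum, map_mul, Complex.conj_natCast, map_intCast] at h1
    rw [← h1]
    refine Finset.sum_congr rfl fun u _ => ?_
    rw [map_mul, map_sub, star_lv, star_lv, inv_inv]
  have hin : ∀ u, (lv l' u - lv l₀ u) *
      (∑ a, (lv l a⁻¹ - lv l₀ a⁻¹) * ∑ χ ∈ lX Z l₀ g, g χ a * (starRingEnd ℂ) (g χ u)) =
      (lv l' u - lv l₀ u) * ((Nat.card D : ℂ) * ∑ t : I, (lv (tw (t : MulAut D) l) u⁻¹ - lv l₀ u⁻¹)) := by
    intro u
    by_cases hu : u ∈ Z
    · rw [mem_ov.1 hl' u hu, sub_self, zero_mul, zero_mul]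
    · have h1 := hLGK p D X Z I g l₀ hg u hu (fun a => lv l a⁻¹ - lv l₀ a⁻¹)
      have h1' : (∑ a, (lv l a⁻¹ - lv l₀ a⁻¹) * ∑ χ ∈ lX Z l₀ g, g χ a * (starRingEnd ℂ) (g χ u)) =
          (Nat.card D : ℂ) / (Nat.card Z : ℂ) * ∑ z : Z, ∑ t : I,
            lv l₀ (z : D)⁻¹ * (lv l ((z : D)⁻¹ * (t : MulAut D) u)⁻¹ - lv l₀ ((z : D)⁻¹ * (t : MulAut D) u)⁻¹) := h1
      rw [h1']
      congr 1
      have h2 : ∀ z : Z, ∑ t : I,
            lv l₀ (z : D)⁻¹ * (lv l ((z : D)⁻¹ * (t : MulAut D) u)⁻¹ - lv l₀ ((z : D)⁻¹ * (t : MulAut D) u)⁻¹) =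
          ∑ t : I, (lv (tw (t : MulAut D) l) u⁻¹ - lv l₀ u⁻¹) := by
        intro z
        refine Finset.sum_congr rfl fun t _ => ?_
        rw [LGM_sh hl z]
        have h3 : ((t : MulAut D) u)⁻¹ = (t : MulAut D) u⁻¹ := (map_inv _ _).symm
        rw [h3, lv_tw, hfx t t.2 u⁻¹]
      rw [Finset.sum_congr rfl fun z _ => h2 z, Finset.sum_const, Finset.card_univ,
        ← Nat.card_eq_fintype_card, nsmul_eq_mul]
      field_simp
  have hmain : (Nat.card D : ℂ) ^ 2 * ∑ χ ∈ lX Z l₀ g, (A χ l : ℂ) * (A χ l' : ℂ) =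
      (Nat.card D : ℂ) ^ 2 * ((Nat.card {t : I // tw (t : MulAut D) l = l'} : ℂ) + Nat.card I) := by
    calc (Nat.card D : ℂ) ^ 2 * ∑ χ ∈ lX Z l₀ g, (A χ l : ℂ) * (A χ l' : ℂ)
        = ∑ χ ∈ lX Z l₀ g, ((Nat.card D : ℂ) * (A χ l : ℂ)) * ((Nat.card D : ℂ) * (A χ l' : ℂ)) := by
          rw [Finset.mul_sum]
          refine Finset.sum_congr rfl fun χ _ => ?_
          ring
      _ = ∑ χ ∈ lX Z l₀ g, ∑ u, (∑ a, g χ a * (lv l a⁻¹ - lv l₀ a⁻¹)) *
            ((starRingEnd ℂ) (g χ u) * (lv l' u - lv l₀ u)) := by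
          refine Finset.sum_congr rfl fun χ _ => ?_
          rw [hconj χ, ← hA χ l hl, Finset.mul_sum]
      _ = ∑ u, (lv l' u - lv l₀ u) *
            (∑ a, (lv l a⁻¹ - lv l₀ a⁻¹) * ∑ χ ∈ lX Z l₀ g, g χ a * (starRingEnd ℂ) (g χ u)) := by
          rw [Finset.sum_comm]
          refine Finset.sum_congr rfl fun u _ => ?_
          have h1 : ∑ a, (lv l a⁻¹ - lv l₀ a⁻¹) * ∑ χ ∈ lX Z l₀ g, g χ a * (starRingEnd ℂ) (g χ u) =
              ∑ χ ∈ lX Z l₀ g, (∑ a, g χ a * (lv l a⁻¹ - lv l₀ a⁻¹)) * (starRingEnd ℂ) (g χ u) := by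
            simp_rw [Finset.mul_sum, Finset.sum_mul]
            rw [Finset.sum_comm]
            refine Finset.sum_congr rfl fun χ _ => Finset.sum_congr rfl fun a _ => ?_
            ring
          rw [h1, Finset.mul_sum]
          refine Finset.sum_congr rfl fun χ _ => ?_
          ring
      _ = ∑ u, (lv l' u - lv l₀ u) *
            ((Nat.card D : ℂ) * ∑ t : I, (lv (tw (t : MulAut D) l) u⁻¹ - lv l₀ u⁻¹)) :=
          Finset.sum_congr rfl fun u _ => hin u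
      _ = (Nat.card D : ℂ) * ∑ t : I, ∑ u, (lv l' u - lv l₀ u) *
            (lv (tw (t : MulAut D) l) u⁻¹ - lv l₀ u⁻¹) := by
          rw [Finset.sum_comm, Finset.mul_sum]
          refine Finset.sum_congr rfl fun u _ => ?_
          rw [← Finset.mul_sum]
          ring
      _ = (Nat.card D : ℂ) * ∑ t : I, (Nat.card D : ℂ) *
            ((if tw (t : MulAut D) l = l' then 1 else 0) + 1) := by
          congr 1
          refine Finset.sum_congr rfl fun t _ => ?_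
          rw [LGM_orth _ _ _ (hlt t) hne']
      _ = _ := by
          rw [← Finset.mul_sum, Finset.sum_add_distrib, LGM_card, Finset.sum_const, Finset.card_univ,
            ← Nat.card_eq_fintype_card, nsmul_eq_mul, mul_one]
          ring
  have h5 := mul_left_cancel₀ (pow_ne_zero 2 hD0) hmain
  exact_mod_cast h5

end Pool.Agent.FI
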